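import Pool.Agent.ASE.Stmts3
import Pool.Agent.Helper98_AT3.Fxs
import Pool.Agent.Helper25_K9.PRG
import Pool.Agent.Helper83_AT3.CO1
import Pool.Agent.Helper33_ASO.NSV
import Pool.Agent.Helper72_AT3.NIB

/-!
# Row CXV: the functions `cx`
-/

open scoped BigOperators

noncomputable section

namespace Pool.Agent.PP.SE.H3

open Pool.Agent.Helper51_AWC Pool.Agent.Helper79_WRA Pool.Agent.PP Pool.Agent.PP.KF
open Pool.Agent.PP.K9 Pool.Agent.PP.K9.H97 Pool.Agent.PP.H75 Pool.Agent.PP.T3 Pool.Agent.PP.SO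
open Pool.Agent.PP.SD

attribute [local instance] Ideal.Quotient.field

section abs

variable {H : Type} [Group H] [Fintype H] {M : Ideal (integralClosure ℤ ℂ)} [M.IsMaximal]

/-- the lifted idempotent acts by a scalar -/
theorem act_irr (b : H → FF M) {κ : H → ℂ} (hκ : κ ∈ Irr H) (s : H) :
    ∑ r, eh M b r * κ (s * r) = H50.om (eh M b) κ * κ s := by
  rw [← H50.eigen (K9.H25.eh_cl M b) hκ s]
  refine Finset.sum_congr rfl fun r _ => ?_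
  have e : s * r = s * (r * s) * s⁻¹ := by group
  rw [e, irr_conj hκ]

/-- the component in a block where all characters are equal at the elements of `P` -/
theorem comp_span (b : H → FF M) {P : H → Prop} {K : H → ℂ} {D : ℂ}
    (hK : ∀ κ ∈ IrrE M b, (∀ s, P s → κ s = K s) ∧ κ 1 = D) {f : H → ℂ}
    (hf : f ∈ Submodule.span ℂ (Irr H)) (s : H) (hs : P s) :
    (∑ r, eh M b r * f (s * r)) * D = (∑ r, eh M b r * f r) * K s := by
  induction hf using Submodule.span_induction with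
  | mem κ hκ =>
    have h1 := act_irr (M := M) b hκ s
    have h2 := act_irr (M := M) b hκ 1
    simp only [one_mul] at h2
    rw [h1, h2]
    by_cases h : κ ∈ IrrE M b
    · obtain ⟨h3, h4⟩ := hK κ h
      rw [h3 s hs, h4]
      ring
    · rw [(KF.H25.eh_om b hκ).2 h]
      ring
  | zero => simp
  | add f g _ _ hf hg =>
    simp only [Pi.add_apply, mul_add, Finset.sum_add_distrib, add_mul]
    rw [hf, hg]
  | smul a f _ hf =>
    have e : ∀ g : H → H, ∑ r, eh M b r * (a • f) (g r) = a * ∑ r, eh M b r * f (g r) := by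
      intro g
      rw [Finset.mul_sum]
      refine Finset.sum_congr rfl fun r _ => ?_
      simp only [Pi.smul_apply, smul_eq_mul]
      ring
    have e1 := e (fun r => s * r)
    have e2 := e (fun r => r)
    rw [e1, e2, mul_assoc, hf, mul_assoc]

end abs

section top

variable {ℓ : ℕ} [hℓ : Fact ℓ.Prime] {M : Ideal (integralClosure ℤ ℂ)} [M.IsMaximal]
  {V₀ G : Type} [CommGroup V₀] [Finite V₀] [Group G] [Finite G] {E₀ : Subgroup (MulAut V₀)}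
  {B : Bk (FF M) V₀ G}

omit [M.IsMaximal] [Finite V₀] [Finite G] hℓ in
theorem reg_coe {H : Subgroup G} (s : H) : Reg ℓ s ↔ Reg ℓ (s : G) := by
  unfold Reg
  rw [Subgroup.orderOf_coe]

omit [Finite V₀] in
theorem bh_sing (wbo : WboStmt) (hM : (ℓ : integralClosure ℤ ℂ) ∈ M)
    (hB : Sb ℓ M E₀ B) (W : Subgroup V₀) (s : G)
    (hs : ¬ Reg ℓ s) : bh B W s = 0 := by
  classical
  have := Fintype.ofFinite (B.C W)
  by_cases h : s ∈ B.C W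
  · have h1 := SO.H33.bh_W B W ⟨s, h⟩
    have h2 := K9.H25.eh_sing wbo ℓ M hM (fun t : B.C W => B.b W t) (hB.lb W).blk.blk.1 ⟨s, h⟩
      (fun h1 => hs ((reg_coe (ℓ := ℓ) (⟨s, h⟩ : B.C W)).1 h1))
    exact h1.trans h2
  · exact SO.H33.bh_not B W h

omit [M.IsMaximal] [Finite V₀] [Finite G] in
theorem C_anti {W W' : Subgroup V₀} (h : W ≤ W') : B.C W' ≤ B.C W := by
  intro z hz
  rw [SO.H33.mem_C] at hz ⊢
  exact fun w hw => hz w (h hw)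

omit [Finite V₀] in
/-- characters are class functions -/
theorem ch_cls {W : Subgroup V₀} {χ : G → ℂ} (hχ : χ ∈ Ch B W) {z g : G} (hz : z ∈ B.C W)
    (hg : g ∈ B.C W) : χ (z * g * z⁻¹) = χ g :=
  irr_conj hχ.2.1 (⟨g, hg⟩ : B.C W) (⟨z, hz⟩ : B.C W)

omit [Finite V₀] in
/-- the functions `cx` as sums over `C Y` -/
theorem cx_eq (Y : Subgroup V₀) [Fintype (B.C Y)] (y : V₀) (χ : G → ℂ) (s : B.C Y) :
    cx B Y y χ s = ∑ r : B.C Y, eh M (fun t : B.C Y => B.b Y t) r *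
      χ (B.i y * ((s * r : B.C Y) : G)) := by
  unfold cx
  rw [H75.sum_sub (B.C Y) (fun r => bh B Y r * χ (B.i y * s * r))
    (fun x hx => by rw [SO.H33.bh_not B Y hx, zero_mul]), finsum_eq_sum_of_fintype]
  refine Finset.sum_congr rfl fun r _ => ?_
  rw [SO.H33.bh_W B Y r, Subgroup.coe_mul, mul_assoc]

/-- the common value of the characters of `g` at the regular elements -/
theorem ch_top (wbo : WboStmt) (hNsd : NsdStmt) (hM : (ℓ : integralClosure ℤ ℂ) ∈ M) (h2 : ℓ ≠ 2)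
    (hFq : Fq ℓ V₀ E₀) (hB : Sd ℓ M E₀ B) :
    (B.D ⊤ : ℂ) ≠ 0 ∧ bh B ⊤ 1 = ℓ ^ 2 * B.D ⊤ ^ 2 / Nat.card (B.C ⊤) ∧
    ∀ κ ∈ Ch B ⊤, ∀ h ∈ B.C ⊤, Reg ℓ h →
      κ h = (Nat.card (B.C ⊤) : ℂ) / (ℓ ^ 2 * B.D ⊤) * bh B ⊤ h⁻¹ := by
  classical
  have hRw : Rw E₀ (⊤ : Subgroup V₀) := by
    refine ⟨?_, ?_⟩
    · intro h
      have h1 : Nat.card (⊤ : Subgroup V₀) = Nat.card V₀ := Subgroup.card_top
      rw [h, Subgroup.card_bot, hFq.cd] at h1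
      have h3 := (Nat.pow_eq_one.1 h1.symm).resolve_right (by norm_num)
      exact hℓ.out.one_lt.ne' h3
    · intro σ _ hσ
      ext v
      exact hσ v (Subgroup.mem_top v)
  obtain ⟨n1, -, -, n4, -, -, n7⟩ := hNsd ℓ M hM h2 V₀ G E₀ hFq B hB ⊤ hRw
  have hD : (B.D ⊤ : ℂ) ≠ 0 := Nat.cast_ne_zero.2 (hB.dg ⊤ hRw).1.ne'
  refine ⟨hD, n7, fun κ hκ h hh hr => ?_⟩
  have := Fintype.ofFinite V₀
  have := Fintype.ofFinite (B.C ⊤)
  rw [n4 κ hκ h hh, finsum_eq_sum_of_fintype]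
  congr 1
  have hfc : ∀ x : V₀, fc B ⊤ x h⁻¹ = bh B ⊤ ((B.i x)⁻¹ * h⁻¹) := by
    intro x
    unfold fc
    have e0 : (⊤ : Subgroup V₀) ⊔ Subgroup.zpowers x = ⊤ := top_sup_eq _
    rw [e0, finsum_eq_sum_of_fintype]
    have hxh : (B.i x)⁻¹ * h⁻¹ ∈ B.C ⊤ :=
      (B.C ⊤).mul_mem ((B.C ⊤).inv_mem (SO.H33.i_mem_C B ⊤ x)) ((B.C ⊤).inv_mem hh)
    have e1 : ∀ z : B.C ⊤, bh B ⊤ ((B.i x)⁻¹ * ((z : G)⁻¹ * h⁻¹ * z)) =
        bh B ⊤ ((B.i x)⁻¹ * h⁻¹) := by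
      intro z
      have hz : B.i x * (z : G) = z * B.i x := (SO.H33.mem_C B).1 z.2 x (Subgroup.mem_top x)
      have e2 : (B.i x)⁻¹ * ((z : G)⁻¹ * h⁻¹ * z) =
          ((z⁻¹ * ⟨(B.i x)⁻¹ * h⁻¹, hxh⟩ * (z⁻¹)⁻¹ : B.C ⊤) : G) := by
        show (B.i x)⁻¹ * ((z : G)⁻¹ * h⁻¹ * z) =
          (z : G)⁻¹ * ((B.i x)⁻¹ * h⁻¹) * ((z : G)⁻¹)⁻¹
        have e3 : (B.i x)⁻¹ * (z : G)⁻¹ = (z : G)⁻¹ * (B.i x)⁻¹ := by
          rw [← mul_inv_rev, ← mul_inv_rev, hz]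
        rw [inv_inv, ← mul_assoc, ← mul_assoc, e3]
        group
      rw [e2, SO.H33.bh_W, K9.H25.eh_cl, ← SO.H33.bh_W]
    rw [Finset.sum_congr rfl fun z _ => e1 z, Finset.sum_const, Finset.card_univ, nsmul_eq_mul,
      ← mul_assoc, Nat.card_eq_fintype_card, inv_mul_cancel₀, one_mul]
    exact_mod_cast Fintype.card_ne_zero
  rw [Finset.sum_eq_single (1 : V₀)]
  · have hl : lam B ⊤ κ 1 = 1 := (n1.mapsTo hκ).1
    have hu : ux B.U ⊤ (1 : V₀) = 1 := by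
      unfold ux
      rw [if_pos (Subgroup.mem_top _)]
    rw [hl, hu, hfc 1, map_one, map_one, Rat.cast_one, div_one, one_mul, inv_one, one_mul]
  · intro x _ hx
    rw [hfc x, bh_sing wbo hM hB.toSb, mul_zero]
    intro h3
    apply hx
    apply hB.inj
    rw [map_one]
    -- `i x` is regular and of order dividing `ℓ`
    have hc : Commute (B.i x) h := (SO.H33.mem_C B).1 hh x (Subgroup.mem_top x)
    have h4 : Reg ℓ ((B.i x)⁻¹ * h⁻¹ * h) := by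
      refine T3.H72.reg_mul ?_ h3 hr
      exact (hc.inv_left.mul_left ((Commute.refl h).inv_left))
    rw [inv_mul_cancel_right] at h4
    have h5 : Reg ℓ (B.i x) := K9.H25.reg_inv.1 h4
    have h6 : orderOf (B.i x) ∣ ℓ := by
      apply orderOf_dvd_of_pow_eq_one
      rw [← map_pow, hFq.ex, map_one]
    have h7 : orderOf (B.i x) = 1 := Nat.Coprime.eq_one_of_dvd h5 h6
    exact orderOf_eq_one_iff.1 h7
  · intro h3
    exact absurd (Finset.mem_univ _) h3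

/-- the values of the functions `cx ⊤` -/
theorem cx_top (wbo : WboStmt) (hNsd : NsdStmt) (hM : (ℓ : integralClosure ℤ ℂ) ∈ M) (h2 : ℓ ≠ 2)
    (hFq : Fq ℓ V₀ E₀) (hB : Sd ℓ M E₀ B) {D : Rd V₀ G} (hRs : Rs ℓ E₀ B D) {W : Subgroup V₀}
    (hW : W ≠ ⊥) {χ : G → ℂ} (hχ : χ ∈ Ch B W) {y : V₀} (hy : y ∉ W ∨ W = ⊤) {s : G}
    (hs : s ∈ B.C ⊤) (hr : Reg ℓ s) :
    cx B ⊤ y χ s = D.D W χ y * ((Nat.card (B.C ⊤) : ℂ) / (ℓ ^ 2 * B.D ⊤) * bh B ⊤ s⁻¹) := by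
  classical
  have := Fintype.ofFinite (B.C ⊤)
  obtain ⟨hD, hb1, hK⟩ := ch_top wbo hNsd hM h2 hFq hB
  have hC : (Nat.card (B.C ⊤) : ℂ) ≠ 0 := by
    exact_mod_cast (Nat.card_pos (α := B.C ⊤)).ne'
  have hl : (ℓ : ℂ) ≠ 0 := Nat.cast_ne_zero.2 hℓ.out.ne_zero
  have hcl : ∀ a b : B.C ⊤, (fun t : B.C ⊤ => χ (B.i y * (t : G))) (b * a * b⁻¹) =
      (fun t : B.C ⊤ => χ (B.i y * (t : G))) a := by
    intro a b
    have hyb : B.i y * (b : G) = b * B.i y := (SO.H33.mem_C B).1 b.2 y (Subgroup.mem_top y)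
    have e : B.i y * ((b * a * b⁻¹ : B.C ⊤) : G) = b * (B.i y * a) * (b : G)⁻¹ := by
      show B.i y * ((b : G) * a * (b : G)⁻¹) = b * (B.i y * a) * (b : G)⁻¹
      rw [← mul_assoc, ← mul_assoc, hyb]
      group
    show χ (B.i y * ((b * a * b⁻¹ : B.C ⊤) : G)) = χ (B.i y * (a : G))
    rw [e]
    refine ch_cls hχ (C_anti le_top b.2) ((B.C W).mul_mem (SO.H33.i_mem_C B W y)
      (C_anti le_top a.2))
  have hspan := T3.H98.span_irr (f := fun t : B.C ⊤ => χ (B.i y * (t : G))) hcl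
  have hKK : ∀ κ ∈ IrrE M (fun t : B.C ⊤ => B.b ⊤ t), (∀ s : B.C ⊤, Reg ℓ s → κ s =
      (Nat.card (B.C ⊤) : ℂ) / (ℓ ^ 2 * B.D ⊤) * bh B ⊤ ((s⁻¹ : B.C ⊤) : G)) ∧
      κ 1 = B.D ⊤ := by
    intro κ hκ
    have hx : PP.ext0 (B.C ⊤) κ ∈ Ch B ⊤ := by
      have h3 : (fun t : B.C ⊤ => PP.ext0 (B.C ⊤) κ t) = κ := by
        funext t
        unfold PP.ext0
        rw [dif_pos t.2]
      refine ⟨?_, ?_⟩
      · intro x hx
        unfold PP.ext0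
        rw [dif_neg hx]
      · rw [h3]
        exact hκ
    have hval : ∀ s : B.C ⊤, PP.ext0 (B.C ⊤) κ s = κ s := by
      intro t
      unfold PP.ext0
      rw [dif_pos t.2]
    have h5 : ∀ s : B.C ⊤, Reg ℓ s → κ s =
        (Nat.card (B.C ⊤) : ℂ) / (ℓ ^ 2 * B.D ⊤) * bh B ⊤ ((s⁻¹ : B.C ⊤) : G) := by
      intro s hs
      rw [← hval s]
      exact hK _ hx s s.2 ((reg_coe s).1 hs)
    refine ⟨h5, ?_⟩
    rw [h5 1 K9.H25.reg_one, inv_one, Subgroup.coe_one, hb1]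
    field_simp
  have h6 := comp_span (M := M) (fun t : B.C ⊤ => B.b ⊤ t) hKK hspan ⟨s, hs⟩
    ((reg_coe (⟨s, hs⟩ : B.C ⊤)).2 hr)
  have h7 := cx_eq (M := M) (B := B) ⊤ y χ ⟨s, hs⟩
  have h8 := hRs.d1 W hW χ hχ y hy
  rw [H75.sum_sub (B.C ⊤) (fun r => bh B ⊤ r * χ (B.i y * r))
    (fun x hx => by rw [SO.H33.bh_not B ⊤ hx, zero_mul]), finsum_eq_sum_of_fintype] at h8
  have h9 : ∑ r : B.C ⊤, bh B ⊤ r * χ (B.i y * r) =
      ∑ r : B.C ⊤, eh M (fun t : B.C ⊤ => B.b ⊤ t) r * χ (B.i y * (r : G)) :=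
    Finset.sum_congr rfl fun r _ => by rw [SO.H33.bh_W B ⊤ r]
  rw [h9] at h8
  rw [← h7, ← h8] at h6
  have h10 : cx B ⊤ y χ s * B.D ⊤ = (B.D ⊤ : ℂ) * D.D W χ y *
      ((Nat.card (B.C ⊤) : ℂ) / (ℓ ^ 2 * B.D ⊤) * bh B ⊤ s⁻¹) := h6
  have h11 : (B.D ⊤ : ℂ) * cx B ⊤ y χ s = (B.D ⊤ : ℂ) * (D.D W χ y *
      ((Nat.card (B.C ⊤) : ℂ) / (ℓ ^ 2 * B.D ⊤) * bh B ⊤ s⁻¹)) := by
    rw [mul_comm, h10, mul_assoc]
  exact mul_left_cancel₀ hD h11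

omit [Finite V₀] in
/-- the sum of the squares -/
theorem sum_sq (wbo : WboStmt) (hM : (ℓ : integralClosure ℤ ℂ) ∈ M) (hB : Sb ℓ M E₀ B)
    (W : Subgroup V₀) :
    ∑ᶠ s ∈ {s : G | s ∈ B.C W ∧ Reg ℓ s}, bh B W s⁻¹ * starRingEnd ℂ (bh B W s⁻¹) =
      bh B W 1 := by
  classical
  have := Fintype.ofFinite G
  have := Fintype.ofFinite (B.C W)
  have h1 : ∑ᶠ s ∈ {s : G | s ∈ B.C W ∧ Reg ℓ s}, bh B W s⁻¹ * starRingEnd ℂ (bh B W s⁻¹) =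
      ∑ᶠ s : G, bh B W s⁻¹ * starRingEnd ℂ (bh B W s⁻¹) := by
    rw [finsum_mem_eq_finite_toFinset_sum _ (Set.toFinite _), finsum_eq_sum_of_fintype]
    refine Finset.sum_subset (Finset.subset_univ _) fun s _ hs => ?_
    rw [Set.Finite.mem_toFinset] at hs
    have h2 : bh B W s⁻¹ = 0 := by
      by_cases h3 : s ∈ B.C W
      · refine bh_sing wbo hM hB W s⁻¹ fun h4 => hs ⟨h3, K9.H25.reg_inv.1 h4⟩
      · exact SO.H33.bh_not B W fun h4 => h3 ((B.C W).inv_mem_iff.1 h4)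
    rw [h2, zero_mul]
  rw [h1, H75.sum_sub (B.C W) (fun s => bh B W s⁻¹ * starRingEnd ℂ (bh B W s⁻¹))
    (fun x hx => by
      rw [SO.H33.bh_not B W fun h4 => hx ((B.C W).inv_mem_iff.1 h4), zero_mul]),
    finsum_eq_sum_of_fintype]
  have h2 := (KF.H25.eh_idem (M := M) (fun t : B.C W => B.b W t)).2
  have h3 := congrFun h2 1
  rw [KF.H25.mulF_eq] at h3
  have h4 := SO.H33.bh_W B W 1
  rw [Subgroup.coe_one] at h4
  rw [h4, ← h3, ← Equiv.sum_comp (Equiv.inv (B.C W))]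
  refine Finset.sum_congr rfl fun s _ => ?_
  rw [Equiv.inv_apply, mul_one, Subgroup.coe_inv, inv_inv, SO.H33.bh_W B W s, T3.H83.eh_star]

end top

/-- CXV -/
theorem cxv (wbo : WboStmt) (hNsd : NsdStmt) : CxvStmt := by
  classical
  intro ℓ _ M _ hM h2 V₀ G _ _ _ _ E₀ hFq B hB D hRs W hW χ hχ y
  have hl : (ℓ : ℂ) ≠ 0 := Nat.cast_ne_zero.2 (Fact.out : ℓ.Prime).ne_zero
  refine ⟨?_, ?_⟩
  · intro hy W' hW' hy' ψ hψ
    obtain ⟨hD, hb1, hK⟩ := ch_top wbo hNsd hM h2 hFq hB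
    have hC : (Nat.card (B.C ⊤) : ℂ) ≠ 0 := by
      exact_mod_cast (Nat.card_pos (α := B.C ⊤)).ne'
    have h1 : ∑ᶠ s ∈ {s : G | s ∈ B.C ⊤ ∧ Reg ℓ s}, cx B ⊤ y χ s * starRingEnd ℂ (cx B ⊤ y ψ s) =
        ∑ᶠ s ∈ {s : G | s ∈ B.C ⊤ ∧ Reg ℓ s}, (D.D W χ y * starRingEnd ℂ (D.D W' ψ y) *
          ((Nat.card (B.C ⊤) : ℂ) / (ℓ ^ 2 * B.D ⊤)) ^ 2) *
          (bh B ⊤ s⁻¹ * starRingEnd ℂ (bh B ⊤ s⁻¹)) := by
      refine finsum_mem_congr rfl fun s hs => ?_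
      rw [cx_top wbo hNsd hM h2 hFq hB hRs hW hχ hy hs.1 hs.2,
        cx_top wbo hNsd hM h2 hFq hB hRs hW' hψ hy' hs.1 hs.2]
      simp only [map_mul, map_div₀, map_pow, map_natCast]
      ring
    rw [h1, ← mul_finsum_mem, sum_sq wbo hM hB.toSb ⊤, hb1]
    field_simp
  · intro hy s hs
    have := Fintype.ofFinite (B.C W)
    have h1 := cx_eq (M := M) (B := B) W y χ ⟨s, hs⟩
    have h3 := act_irr (M := M) (fun t : B.C W => B.b W t) hχ.2.1 (SO.H33.jW B W y * ⟨s, hs⟩)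
    rw [(KF.H25.eh_om _ hχ.2.1).1 hχ.2, one_mul] at h3
    have h4 := KF.H32.central_mul hχ.2.1 (SO.H33.jW_cen B W hy) ⟨s, hs⟩
    have h5 : cx B W y χ s = ∑ r : B.C W, eh M (fun t : B.C W => B.b W t) r *
        χ ((SO.H33.jW B W y * ⟨s, hs⟩ * r : B.C W) : G) := by
      rw [show cx B W y χ s = cx B W y χ ((⟨s, hs⟩ : B.C W) : G) from rfl, h1]
      refine Finset.sum_congr rfl fun r _ => ?_
      rw [mul_assoc (SO.H33.jW B W y)]
      rfl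
    rw [h5]
    refine h3.trans ?_
    refine h4.trans ?_
    rfl

end Pool.Agent.PP.SE.H3
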