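import Pool.Agent.ASE.Stmts5
import Pool.Agent.ASE.Stmts6

/-!
# Row ETV: the values of `et` at `⊥` (from ETC)
-/

noncomputable section

namespace Pool.Agent.PP.SE.H3

open Pool.Agent.Helper51_AWC Pool.Agent.Helper79_WRA Pool.Agent.PP Pool.Agent.PP.KF
open Pool.Agent.PP.K9 Pool.Agent.PP.K9.H97 Pool.Agent.PP.H75 Pool.Agent.PP.T3 Pool.Agent.PP.SO
open Pool.Agent.PP.SD

attribute [local instance] Ideal.Quotient.field

/-- ETV -/
theorem etv (hEtc : EtcStmt) : EtvStmt := by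
  intro ℓ _ M _ hM _ V₀ G _ _ _ _ E₀ hFq B hB D hRs a ha κ hκ χ hχ
  have ha0 : a ≠ ⊥ := by
    intro h
    have h1 := ha.1
    rw [h, Subgroup.card_bot] at h1
    exact (Fact.out : ℓ.Prime).one_lt.ne h1
  exact (hEtc ℓ M hM V₀ G E₀ hFq B hB D hRs a ha0 χ hχ).1 κ hκ

end Pool.Agent.PP.SE.H3
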