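import Pool.Agent.ASE.Stmts2b
import Pool.Agent.Helper94_ASE.ACB

/-!
# Row RNC: equivariance for `Rw E₀ W`
-/

open scoped BigOperators

noncomputable section

namespace Pool.Agent.PP.SE.H3

open Pool.Agent.Helper51_AWC Pool.Agent.Helper79_WRA Pool.Agent.PP Pool.Agent.PP.KF
open Pool.Agent.PP.K9 Pool.Agent.PP.K9.H97 Pool.Agent.PP.H75 Pool.Agent.PP.T3 Pool.Agent.PP.SO
open Pool.Agent.PP.SD

attribute [local instance] Ideal.Quotient.field

/-- RNC -/
theorem rnc (hCjd : CjdStmt) (hRwd : RwdStmt) : RncStmt := by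
  classical
  intro ℓ _ M _ hM h2 V₀ G _ _ _ _ E₀ hFq B hB W hW σ hσ t ht hact D hD hD'
  obtain ⟨c1, c2, c3, c4, c5, c6⟩ := hCjd ℓ M hM h2 V₀ G E₀ hFq B hB.toSb σ hσ t ht hact W
  obtain ⟨-, d2, d3⟩ := c6 hB hW
  have hRw : Rw E₀ (mp σ W) := ((hRwd ℓ V₀ E₀ hFq).2.1 σ hσ W).2 hW
  refine ⟨?_, hRw, ?_⟩
  · rw [hD'.dU, hD.dU]
    exact d3
  · intro χ hχ
    have h1 : (fun g => χ (t⁻¹ * g * t)) ∈ Ch B (mp σ W) :=
      H94.ch_cc hact (hB.lb W).blk.blk.1.1 c1 hχ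
    refine ⟨h1, fun x => ?_⟩
    rw [hD'.dD _ h1, hD.dD χ hχ]
    have hS : B.S (mp σ W) = B.S W := d2
    have hU : B.U (mp σ W) = B.U W := d3
    have hfc : fc B (mp σ W) (σ x) = H94.cc t (fc B W x) := by
      funext g
      have h3 := c5 x (t⁻¹ * g * t)
      have e : t * (t⁻¹ * g * t) * t⁻¹ = g := by group
      rw [e] at h3
      exact h3
    have hmem : σ x ∈ mp σ W ↔ x ∈ W := by
      constructor
      · rintro ⟨w, hw, hwx⟩
        have h3 : w = x := σ.injective hwx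
        exact h3 ▸ hw
      · intro h
        exact ⟨x, h, rfl⟩
    have hux : ux B.U (mp σ W) (σ x) = ux B.U W x := by
      unfold ux
      rw [hU]
      by_cases h : x ∈ W
      · rw [if_pos h, if_pos (hmem.2 h)]
      · rw [if_neg h, if_neg fun h' => h (hmem.1 h')]
    rw [hS]
    congr 1
    unfold lam
    rw [hfc, hux]
    congr 1
    exact H94.cv_cc t (fc B W x) χ

end Pool.Agent.PP.SE.H3
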